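import Pool.Agent.H48.HN.Defs

/-!
The region `b ≥ 1`: no sink and no attractor.
-/

namespace Pool.Agent.H48.HN

open Filter Topology Set MeasureTheory

theorem det_jac (a b : ℝ) (p : ℝ × ℝ) : (jac a b p).det = -b := by
  simp [jac, Matrix.det_fin_two]

theorem det_jacIter (a b : ℝ) (p : ℝ × ℝ) (n : ℕ) : (jacIter a b p n).det = (-b) ^ n := by
  induction n with
  | zero => simp [jacIter]
  | succ n ih => rw [jacIter, Matrix.det_mul, det_jac, ih, pow_succ]; ring

theorem no_sink {a b : ℝ} (hb : 1 ≤ b) (O : Set (ℝ × ℝ)) : ¬ IsSink a b O := by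
  rintro ⟨p, n, -, -, -, h⟩
  set M := (jacIter a b p n).map (algebraMap ℝ ℂ) with hM
  have hdet : M.det = (((-b) ^ n : ℝ) : ℂ) := by
    have := RingHom.map_det (algebraMap ℝ ℂ) (jacIter a b p n)
    rw [det_jacIter] at this
    exact this.symm
  obtain ⟨μ, hμ⟩ := IsAlgClosed.exists_root M.charpoly (by
    rw [Matrix.charpoly_degree_eq_dim]; norm_num)
  have hq : μ ^ 2 - M.trace * μ + M.det = 0 := by
    have := hμ
    rw [Matrix.charpoly_fin_two, Polynomial.IsRoot.def] at this
    simpa using this
  have hν : M.charpoly.IsRoot (M.trace - μ) := by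
    rw [Matrix.charpoly_fin_two, Polynomial.IsRoot.def]
    simp only [Polynomial.eval_add, Polynomial.eval_sub, Polynomial.eval_mul, Polynomial.eval_pow,
      Polynomial.eval_X, Polynomial.eval_C]
    linear_combination hq
  have h1 := h μ hμ
  have h2 := h _ hν
  have h3 : μ * (M.trace - μ) = M.det := by linear_combination -hq
  have h4 : ‖μ‖ * ‖M.trace - μ‖ = b ^ n := by
    rw [← norm_mul, h3, hdet, Complex.norm_real, norm_pow, norm_neg, Real.norm_eq_abs,
      abs_of_pos (by linarith)]
  have h5 : 1 ≤ b ^ n := one_le_pow₀ hb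
  nlinarith [norm_nonneg μ, norm_nonneg (M.trace - μ)]

theorem hasFDerivAt_henon (a b : ℝ) (p : ℝ × ℝ) : HasFDerivAt (henon a b)
    (LinearMap.toContinuousLinearMap (Matrix.toLin (Module.Basis.finTwoProd ℝ)
      (Module.Basis.finTwoProd ℝ) (jac a b p))) p := by
  rw [jac, Matrix.toLin_finTwoProd_toContinuousLinearMap]
  have h1 : HasFDerivAt (fun q : ℝ × ℝ => q.1) (ContinuousLinearMap.fst ℝ ℝ ℝ) p := hasFDerivAt_fst
  have h2 : HasFDerivAt (fun q : ℝ × ℝ => q.2) (ContinuousLinearMap.snd ℝ ℝ ℝ) p := hasFDerivAt_snd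
  have h4 := ((((h1.pow 2).const_mul a).const_sub 1).add h2).prodMk (h1.const_mul b)
  refine h4.congr_fderiv ?_
  ext <;> simp <;> ring

theorem volume_image {a b : ℝ} (hb : 0 < b) {S : Set (ℝ × ℝ)} (hS : MeasurableSet S) :
    volume (henon a b '' S) = ENNReal.ofReal b * volume S := by
  rw [← lintegral_abs_det_fderiv_eq_addHaar_image volume hS
    (fun x _ => (hasFDerivAt_henon a b x).hasFDerivWithinAt) (henon_injective hb.ne').injOn]
  have : ∀ x, ENNReal.ofReal |(LinearMap.toContinuousLinearMap (Matrix.toLin
      (Module.Basis.finTwoProd ℝ) (Module.Basis.finTwoProd ℝ) (jac a b x))).det| =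
      ENNReal.ofReal b := by
    intro x
    rw [LinearMap.det_toContinuousLinearMap, LinearMap.det_toLin, det_jac, abs_neg, abs_of_pos hb]
  simp only [this]
  rw [setLIntegral_const]

theorem image_iterate_succ (a b : ℝ) (n : ℕ) (S : Set (ℝ × ℝ)) :
    (henon a b)^[n + 1] '' S = henon a b '' ((henon a b)^[n] '' S) := by
  rw [← image_comp, ← Function.iterate_succ']

theorem no_attractor {a b : ℝ} (hb : 1 ≤ b) (A : Set (ℝ × ℝ)) : ¬ IsAttractor a b A := by
  intro hA
  have hb0 : 0 < b := by linarith
  obtain ⟨z, hz, -⟩ := hA.transitive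
  obtain ⟨L, hL, hLA⟩ := hA.attracting
  obtain ⟨K, hK, hAK, hKL⟩ := exists_compact_between hA.compact isOpen_interior
    (subset_interior_iff_mem_nhdsSet.2 hL)
  have hinj := henon_injective (a := a) hb0.ne'
  have hcont : ∀ k, Continuous (henon a b)^[k] := fun k => (henon_continuous a b).iterate k
  have hinvk : ∀ k, (henon a b)^[k] '' A = A := by
    intro k
    induction k with
    | zero => simp
    | succ k ih => rw [image_iterate_succ, ih, hA.invariant]
  -- the trapping sets
  set U : ℕ → Set (ℝ × ℝ) := fun n => ⋂ k, ⋂ (_ : k ≤ n), (henon a b)^[k] '' K with hU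
  have hUmem : ∀ n w, w ∈ U n ↔ ∀ k ≤ n, w ∈ (henon a b)^[k] '' K := by
    intro n w; simp [hU]
  have hcpt : ∀ k, IsCompact ((henon a b)^[k] '' K) := fun k => hK.image (hcont k)
  have hUK : ∀ n, U n ⊆ K := by
    intro n w hw
    have := (hUmem n w).1 hw 0 (Nat.zero_le _)
    simpa using this
  have hUcl : ∀ n, IsClosed (U n) := fun n =>
    isClosed_iInter fun k => isClosed_iInter fun _ => (hcpt k).isClosed
  have hUcpt : ∀ n, IsCompact (U n) := fun n => hK.of_isClosed_subset (hUcl n) (hUK n)
  have hUanti : Antitone U := by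
    intro m n hmn w hw
    rw [hUmem] at hw ⊢
    exact fun k hk => hw k (hk.trans hmn)
  have hAint : ∀ k, A ⊆ interior ((henon a b)^[k] '' K) := by
    intro k
    have ho : IsOpen ((henon a b)^[k] '' interior K) := by
      induction k with
      | zero => simp
      | succ k ih =>
        rw [image_iterate_succ, ← henonHomeo_coe a hb0.ne']
        exact (henonHomeo a hb0.ne').isOpenMap _ ih
    have h1 : (henon a b)^[k] '' interior K ⊆ interior ((henon a b)^[k] '' K) :=
      interior_maximal (image_mono interior_subset) ho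
    calc A = (henon a b)^[k] '' A := (hinvk k).symm
      _ ⊆ (henon a b)^[k] '' interior K := image_mono hAK
      _ ⊆ _ := h1
  have hAU : ∀ n, A ⊆ interior (U n) := by
    intro n w hw
    have h1 : ∀ k ∈ Finset.range (n + 1), (henon a b)^[k] '' K ∈ 𝓝 w := fun k _ =>
      mem_interior_iff_mem_nhds.1 (hAint k hw)
    have h2 : (⋂ k ∈ Finset.range (n + 1), (henon a b)^[k] '' K) ∈ 𝓝 w :=
      (Filter.biInter_finset_mem _).2 h1
    rw [mem_interior_iff_mem_nhds]
    refine Filter.mem_of_superset h2 fun v hv => ?_
    rw [hUmem]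
    intro k hk
    exact mem_iInter₂.1 hv k (Finset.mem_range.2 (by omega))
  have hinter : ⋂ n, U n = A := by
    apply Subset.antisymm
    · rw [← hLA]
      intro w hw
      rw [mem_iInter] at hw ⊢
      intro n
      have := (hUmem n w).1 (hw n) n le_rfl
      exact image_mono (hKL.trans interior_subset) this
    · exact subset_iInter fun n => (hAU n).trans interior_subset
  -- eventually trapped
  obtain ⟨n, hn⟩ : ∃ n, henon a b '' U n ⊆ interior K := by
    apply exists_subset_nhds_of_isCompact
    · exact directed_of_isDirected_le fun m n hmn => image_mono (hUanti hmn)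
    · exact fun n => (hUcpt n).image (henon_continuous a b)
    · intro x hx
      have : x ∈ A := by
        rw [← hA.invariant, ← hinter, image_iInter ⟨hinj, (henonHomeo a hb0.ne').surjective⟩]
        exact hx
      exact isOpen_interior.mem_nhds (hAK this)
  have hstep : ∀ m, n ≤ m → U (m + 1) = henon a b '' U m := by
    intro m hm
    apply Subset.antisymm
    · intro w hw
      rw [hUmem] at hw
      refine ⟨henonInv a b w, ?_, henon_rightInv hb0.ne' w⟩
      rw [hUmem]
      intro k hk
      obtain ⟨v, hv, rfl⟩ := hw (k + 1) (by omega)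
      rw [Function.iterate_succ_apply', henon_leftInv hb0.ne']
      exact mem_image_of_mem _ hv
    · rintro _ ⟨w, hw, rfl⟩
      rw [hUmem]
      intro k hk
      cases k with
      | zero =>
        have : henon a b w ∈ interior K := hn (mem_image_of_mem _ (hUanti hm hw))
        simpa using interior_subset this
      | succ k =>
        rw [image_iterate_succ]
        exact mem_image_of_mem _ ((hUmem m w).1 hw k (by omega))
  have hmeas : ∀ m, MeasurableSet (U m) := fun m => (hUcl m).measurableSet
  have hvol : ∀ m, volume (U n) ≤ volume (U (n + m)) := by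
    intro m
    induction m with
    | zero => exact le_rfl
    | succ m ih =>
      rw [← add_assoc, hstep (n + m) (by omega), volume_image hb0 (hmeas _)]
      calc volume (U n) ≤ volume (U (n + m)) := ih
        _ = 1 * volume (U (n + m)) := (one_mul _).symm
        _ ≤ ENNReal.ofReal b * volume (U (n + m)) := by
            gcongr
            rw [← ENNReal.ofReal_one]
            exact ENNReal.ofReal_le_ofReal hb
  have hfin : volume (U n) ≠ ⊤ := (hUcpt n).measure_lt_top.ne
  have hAvol : volume (U n) ≤ volume A := by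
    have ht := tendsto_measure_iInter_atTop (μ := (volume : Measure (ℝ × ℝ))) (s := U)
      (fun i => (hmeas i).nullMeasurableSet) hUanti ⟨n, hfin⟩
    rw [hinter] at ht
    refine ge_of_tendsto ht (eventually_atTop.2 ⟨n, fun m hm => ?_⟩)
    obtain ⟨k, rfl⟩ := Nat.exists_eq_add_of_le hm
    exact hvol k
  have hAsub : A ⊆ U n := (hAU n).trans interior_subset
  have hdiff : volume (U n \ A) = 0 := by
    rw [measure_sdiff hAsub hA.compact.isClosed.measurableSet.nullMeasurableSet
      (hA.compact.measure_lt_top.ne)]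
    exact tsub_eq_zero_of_le hAvol
  have hopen : IsOpen (interior (U n) \ A) := isOpen_interior.sdiff hA.compact.isClosed
  have hempty : interior (U n) \ A = ∅ := by
    apply hopen.eq_empty_of_measure_zero (μ := volume)
    exact measure_mono_null (sdiff_subset_sdiff_left interior_subset) hdiff
  have hAeq : interior (U n) = A := Subset.antisymm (sdiff_eq_empty.1 hempty) (hAU n)
  have hclopen : IsClopen A := ⟨hA.compact.isClosed, hAeq ▸ isOpen_interior⟩
  rcases isClopen_iff.1 hclopen with h | h
  · rw [h] at hz; exact hz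
  · exact noncompact_univ (ℝ × ℝ) (h ▸ hA.compact)

end Pool.Agent.H48.HN
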