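import Pool.Agent.H48.HN.Seq

/-!
Every bounded solution of `x (n+2) = 1 - a x(n+1)^2 + b x n` (`0 < b < 1`, `0 < a < (1-b)^2`)
has convergent even and odd subsequences.
-/

namespace Pool.Agent.H48.HN

open Filter Topology

theorem tendsto_zero_of_even_odd {f : ℕ → ℝ} {b C : ℝ} (hb : 0 < b) (hb1 : b < 1)
    (h0 : ∀ m, |f (2 * m)| ≤ C * b ^ m) (h1 : ∀ m, |f (2 * m + 1)| ≤ C * b ^ m) :
    Tendsto f atTop (𝓝 0) := by
  have ht : Tendsto (fun m : ℕ => C * b ^ m) atTop (𝓝 0) := by
    have := (tendsto_pow_atTop_nhds_zero_of_lt_one hb.le hb1).const_mul C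
    simpa using this
  rw [Metric.tendsto_atTop]
  intro ε hε
  obtain ⟨M, hM⟩ := (ht.eventually (gt_mem_nhds hε)).exists_forall_of_atTop
  refine ⟨2 * M, fun n hn => ?_⟩
  rw [Real.dist_eq, sub_zero]
  rcases Nat.even_or_odd' n with ⟨m, rfl | rfl⟩
  · exact (h0 m).trans_lt (hM m (by omega))
  · exact (h1 m).trans_lt (hM m (by omega))

/-- The recurrence for `e = x + P`. -/
theorem e_rec {x : ℕ → ℝ} {a b : ℝ} (ha : 0 < a)
    (hx : ∀ n, x (n + 2) = 1 - a * x (n + 1) ^ 2 + b * x n) (n : ℕ) :
    x (n + 2) + PP a b = a * (PP a b - x (n + 1)) * (x (n + 1) + PP a b) + b * (x n + PP a b) := by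
  have he := PP_eq (b := b) ha
  rw [hx n]
  linear_combination -he

/-- Zero twice means zero forever. -/
theorem zero_forever {e A : ℕ → ℝ} {b : ℝ}
    (he : ∀ n, e (n + 2) = A n * e (n + 1) + b * e n) {N : ℕ} (h0 : e N = 0) (h1 : e (N + 1) = 0) :
    ∀ n, N ≤ n → e n = 0 := by
  have key : ∀ k, e (N + k) = 0 ∧ e (N + k + 1) = 0 := by
    intro k
    induction k with
    | zero => exact ⟨h0, h1⟩
    | succ k ih =>
      refine ⟨ih.2, ?_⟩
      have := he (N + k)
      have e : N + (k + 1) + 1 = N + k + 2 := by ring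
      rw [e, this, ih.1, ih.2]; ring
  intro n hn
  obtain ⟨k, rfl⟩ := Nat.exists_eq_add_of_le hn
  exact (key k).1

/-- Case (ii): `e ≤ 0` eventually and bounded implies `e = 0` eventually. -/
theorem case_neg {e : ℕ → ℝ} {a b P C : ℝ} (ha : 0 < a) (hb : 0 < b)
    (hκ : 0 < 2 * a * P + b - 1) (hP : 0 < P)
    (he : ∀ n, e (n + 2) = a * (2 * P - e (n + 1)) * e (n + 1) + b * e n)
    (hC : ∀ n, |e n| ≤ C) {N : ℕ} (hN : ∀ n, N ≤ n → e n ≤ 0) :
    ∀ n, N ≤ n → e n = 0 := by
  set κ : ℝ := 2 * a * P + b - 1 with hκd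
  set u : ℕ → ℝ := fun n => - e n with hu
  have hu0 : ∀ n, N ≤ n → 0 ≤ u n := fun n hn => by simp only [hu]; linarith [hN n hn]
  have hrec : ∀ n, N ≤ n → 2 * a * P * u (n + 1) + b * u n ≤ u (n + 2) := by
    intro n hn
    simp only [hu]
    rw [he n]
    have h1 := hN (n + 1) (by omega)
    have : 0 ≤ a * (e (n + 1)) ^ 2 := by positivity
    nlinarith
  set W : ℕ → ℝ := fun n => u (n + 1) + b * u n with hW
  have hWnn : ∀ n, N ≤ n → 0 ≤ W n := fun n hn => by
    have := hu0 n hn
    have := hu0 (n + 1) (by omega)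
    simp only [hW]; positivity
  have hW1 : ∀ n, N ≤ n → W n + κ * u (n + 1) ≤ W (n + 1) := by
    intro n hn
    have := hrec n hn
    simp only [hW, hκd]
    have e1 : n + 1 + 1 = n + 2 := by ring
    rw [e1]
    linarith
  have hW2 : ∀ n, N ≤ n → (1 + κ) * W n ≤ W (n + 2) := by
    intro n hn
    have h1 := hW1 n hn
    have h2 := hW1 (n + 1) (by omega)
    have e1 : n + 1 + 1 = n + 2 := by ring
    rw [e1] at h2
    have h3 := hrec n hn
    have h4 := hu0 (n + 1) (by omega)
    have h5 : b * u n ≤ u (n + 2) := by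
      have : 0 ≤ 2 * a * P * u (n + 1) := by positivity
      linarith
    have h6 : κ * (b * u n) ≤ κ * u (n + 2) := mul_le_mul_of_nonneg_left h5 hκ.le
    have h7 : W n = u (n + 1) + b * u n := rfl
    have h8 : κ * W n = κ * u (n + 1) + κ * (b * u n) := by rw [h7]; ring
    linarith
  have hWk : ∀ k, (1 + κ) ^ k * W N ≤ W (N + 2 * k) := by
    intro k
    induction k with
    | zero => simp
    | succ k ih =>
      have h := hW2 (N + 2 * k) (by omega)
      have e1 : N + 2 * (k + 1) = N + 2 * k + 2 := by ring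
      rw [e1]
      calc (1 + κ) ^ (k + 1) * W N = (1 + κ) * ((1 + κ) ^ k * W N) := by ring
        _ ≤ (1 + κ) * W (N + 2 * k) := mul_le_mul_of_nonneg_left ih (by linarith)
        _ ≤ _ := h
  have hWb : ∀ n, W n ≤ (1 + b) * C := by
    intro n
    have h1 := hC n
    have h2 := hC (n + 1)
    have h3 := neg_le_abs (e n)
    have h4 := neg_le_abs (e (n + 1))
    simp only [hW, hu]
    nlinarith
  have hWN : W N ≤ 0 := by
    by_contra hc
    push Not at hc
    have : Tendsto (fun k : ℕ => (1 + κ) ^ k * W N) atTop atTop :=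
      (tendsto_pow_atTop_atTop_of_one_lt (by linarith)).atTop_mul_const hc
    obtain ⟨k, hk⟩ := (this.eventually (eventually_gt_atTop ((1 + b) * C))).exists
    linarith [hWk k, hWb (N + 2 * k)]
  have h0 := hu0 N le_rfl
  have h1 := hu0 (N + 1) (by omega)
  have h7 : W N = u (N + 1) + b * u N := rfl
  have hb0 : 0 ≤ b * u N := by positivity
  have hN1 : u (N + 1) = 0 := by linarith
  have hN0 : u N = 0 := by
    have : b * u N = 0 := by linarith
    rcases mul_eq_zero.1 this with h | h
    · exact absurd h hb.ne'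
    · exact h
  apply zero_forever (A := fun n => a * (2 * P - e (n + 1))) (b := b) he
  · simpa [hu] using hN0
  · simpa [hu] using hN1

/-- Case (i): `e ≥ 0` eventually, not zero: a positive lower bound. -/
theorem case_pos {e : ℕ → ℝ} {a b P c : ℝ} (ha : 0 < a) (hb : 0 < b)
    (hκ : 0 < 2 * a * P + b - 1) (hc : 0 < c)
    (he : ∀ n, e (n + 2) = a * (2 * P - e (n + 1)) * e (n + 1) + b * e n)
    (hcA : ∀ n, c ≤ a * (2 * P - e (n + 1)))
    {N : ℕ} (hN : ∀ n, N ≤ n → 0 ≤ e n) (hne : 0 < e (N + 1) + b * e N) :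
    ∃ δ > 0, ∀ n, N + 2 ≤ n → δ ≤ e n := by
  set κ : ℝ := 2 * a * P + b - 1 with hκd
  set w : ℝ := min (e (N + 1) + b * e N) (b * (κ / a)) with hw
  have hw0 : 0 < w := lt_min hne (by positivity)
  have key : ∀ k, w ≤ e (N + k + 1) + b * e (N + k) := by
    intro k
    induction k with
    | zero => exact min_le_left _ _
    | succ k ih =>
      have h0 := hN (N + k) (by omega)
      have h1 := hN (N + k + 1) (by omega)
      have hr := he (N + k)
      have e1 : N + (k + 1) + 1 = N + k + 2 := by ring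
      have e2 : N + (k + 1) = N + k + 1 := by ring
      rw [e1, e2, hr]
      rcases le_or_gt (e (N + k + 1)) (κ / a) with h | h
      · have h3 : 0 ≤ (κ - a * e (N + k + 1)) * e (N + k + 1) := by
          apply mul_nonneg _ h1
          rw [le_div_iff₀ ha] at h
          linarith
        simp only [hκd] at h3
        nlinarith
      · have h4 : w ≤ b * (κ / a) := min_le_right _ _
        have h5 : b * (κ / a) ≤ b * e (N + k + 1) := mul_le_mul_of_nonneg_left h.le hb.le
        have h6 : 0 ≤ a * (2 * P - e (N + k + 1)) * e (N + k + 1) :=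
          mul_nonneg (hc.le.trans (hcA (N + k))) h1
        have h7 : 0 ≤ b * e (N + k) := by positivity
        linarith
  refine ⟨min c 1 * w, mul_pos (lt_min hc one_pos) hw0, ?_⟩
  intro n hn
  obtain ⟨k, rfl⟩ := Nat.exists_eq_add_of_le hn
  have h0 := hN (N + k) (by omega)
  have h1 := hN (N + k + 1) (by omega)
  have e3 : N + 2 + k = N + k + 2 := by ring
  rw [e3, he (N + k)]
  have hm1 : min c 1 ≤ c := min_le_left _ _
  have hm2 : min c 1 ≤ 1 := min_le_right _ _
  have hm0 : 0 < min c 1 := lt_min hc one_pos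
  have h8 : min c 1 * e (N + k + 1) ≤ a * (2 * P - e (N + k + 1)) * e (N + k + 1) :=
    mul_le_mul_of_nonneg_right (hm1.trans (hcA (N + k))) h1
  have h9 : min c 1 * (b * e (N + k)) ≤ 1 * (b * e (N + k)) :=
    mul_le_mul_of_nonneg_right hm2 (by positivity)
  have h10 : min c 1 * w ≤ min c 1 * (e (N + k + 1) + b * e (N + k)) :=
    mul_le_mul_of_nonneg_left (key k) hm0.le
  nlinarith

/-- Positivity from a lower bound above `-P`. -/
theorem pos_of_lower {x : ℕ → ℝ} {a b : ℝ} (ha : 0 < a) (hb : 0 < b) (hb1 : b < 1)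
    (hab : a < (1 - b) ^ 2) (hx : ∀ n, x (n + 2) = 1 - a * x (n + 1) ^ 2 + b * x n)
    {C : ℝ} (hC : ∀ n, |x n| ≤ C) {δ : ℝ} (hδ : 0 < δ)
    (hlow : ∃ N, ∀ n, N ≤ n → -PP a b + δ ≤ x n) :
    ∃ N, ∀ n, N ≤ n → 0 < x n := by
  have h1b : 0 < 1 - b := by linarith
  have hbdd1 : IsBoundedUnder (· ≥ ·) atTop x :=
    isBoundedUnder_of ⟨-C, fun n => (abs_le.1 (hC n)).1⟩
  have hbdd2 : IsBoundedUnder (· ≤ ·) atTop x :=
    isBoundedUnder_of ⟨C, fun n => (abs_le.1 (hC n)).2⟩
  set m : ℝ := liminf x atTop with hm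
  set M : ℝ := 1 / (1 - b) with hM
  have hM0 : 0 < M := by positivity
  have haM : a * M ^ 2 < 1 := by
    rw [hM, div_pow, one_pow, mul_one_div, div_lt_one (by positivity)]; exact hab
  have hmlow : -PP a b + δ ≤ m := by
    obtain ⟨N, hN⟩ := hlow
    exact le_liminf_of_le hbdd2.isCoboundedUnder_ge (eventually_atTop.2 ⟨N, hN⟩)
  have hmpos : 0 < m := by
    by_contra hmc
    push Not at hmc
    -- the inequality with epsilon
    have hineq : ∀ ε : ℝ, 0 < ε →
        0 < (1 - b) * m + (1 + b) * ε + a * (max M (-m) + ε) ^ 2 - 1 := by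
      intro ε hε
      obtain ⟨N1, hN1⟩ := eventually_le ha hb hb1 hx hε
      have hev : ∀ᶠ n in atTop, m - ε < x n :=
        eventually_lt_of_lt_liminf (by linarith) hbdd1
      obtain ⟨N2, hN2⟩ := eventually_atTop.1 hev
      have hfr : ∃ᶠ n in atTop, x n < m + ε :=
        frequently_lt_of_liminf_lt hbdd2.isCoboundedUnder_ge (by linarith)
      obtain ⟨n, hn, hlt⟩ := (frequently_atTop.1 hfr) (max N1 N2 + 2)
      obtain ⟨k, rfl⟩ : ∃ k, n = k + 2 := ⟨n - 2, by omega⟩
      have hk1 : N1 ≤ k := by have := le_max_left N1 N2; omega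
      have hk2 : N2 ≤ k := by have := le_max_right N1 N2; omega
      rw [hx k] at hlt
      have hu := hN1 (k + 1) (by omega)
      have hl := hN2 (k + 1) (by omega)
      have hl0 := hN2 k hk2
      have hmax1 : M ≤ max M (-m) := le_max_left _ _
      have hmax2 : -m ≤ max M (-m) := le_max_right _ _
      have hsq : x (k + 1) ^ 2 ≤ (max M (-m) + ε) ^ 2 := by
        apply sq_le_sq'
        · linarith
        · linarith
      have h3 : a * x (k + 1) ^ 2 ≤ a * (max M (-m) + ε) ^ 2 :=
        mul_le_mul_of_nonneg_left hsq ha.le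
      have h4 : b * (m - ε) < b * x k := mul_lt_mul_of_pos_left hl0 hb
      nlinarith
    have hlim : 0 ≤ (1 - b) * m + (1 + b) * 0 + a * (max M (-m) + 0) ^ 2 - 1 := by
      have hcont : Continuous fun ε : ℝ =>
          (1 - b) * m + (1 + b) * ε + a * (max M (-m) + ε) ^ 2 - 1 := by fun_prop
      have ht : Tendsto (fun ε : ℝ =>
          (1 - b) * m + (1 + b) * ε + a * (max M (-m) + ε) ^ 2 - 1) (𝓝[>] 0)
          (𝓝 ((1 - b) * m + (1 + b) * 0 + a * (max M (-m) + 0) ^ 2 - 1)) :=
        (hcont.tendsto 0).mono_left nhdsWithin_le_nhds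
      exact ge_of_tendsto ht (eventually_nhdsWithin_of_forall fun ε hε => (hineq ε hε).le)
    simp only [mul_zero, add_zero] at hlim
    rcases le_total M (-m) with h | h
    · rw [max_eq_right h] at hlim
      have := quad_neg (b := b) ha hb1 (s := -m) (by linarith) (by linarith)
      nlinarith
    · rw [max_eq_left h] at hlim
      nlinarith [mul_nonneg h1b.le (neg_nonneg.2 hmc)]
  have hev : ∀ᶠ n in atTop, 0 < x n := eventually_lt_of_lt_liminf hmpos hbdd1
  exact eventually_atTop.1 hev

/-- Dichotomy: a bounded solution tends to the negative fixed point or is eventually positive. -/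
theorem dichotomy {x : ℕ → ℝ} {a b : ℝ} (ha : 0 < a) (hb : 0 < b) (hb1 : b < 1)
    (hab : a < (1 - b) ^ 2) (hx : ∀ n, x (n + 2) = 1 - a * x (n + 1) ^ 2 + b * x n)
    {C : ℝ} (hC : ∀ n, |x n| ≤ C) :
    Tendsto x atTop (𝓝 (-PP a b)) ∨ ∃ N, ∀ n, N ≤ n → 0 < x n := by
  have h1b : 0 < 1 - b := by linarith
  have hP := PP_pos ha hb1
  have hPg := PP_gt ha hb1 hab
  have hPe := PP_eq (b := b) ha
  set P := PP a b with hPdef
  have hκ : 0 < 2 * a * P + b - 1 := by
    have h1 : (1 - b) * P < a * P * P := by nlinarith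
    have h2 : (1 - b) < a * P := lt_of_mul_lt_mul_right h1 hP.le
    nlinarith
  obtain ⟨N0, hN0⟩ := eventually_le ha hb hb1 hx (ε := (P - 1 / (1 - b)) / 2) (by linarith)
  set y : ℕ → ℝ := fun k => x (N0 + k) with hy
  have hyx : ∀ n, y (n + 2) = 1 - a * y (n + 1) ^ 2 + b * y n := fun n => hx (N0 + n)
  have hyC : ∀ n, |y n| ≤ C := fun n => hC _
  have hyu : ∀ n, y n ≤ (P + 1 / (1 - b)) / 2 := fun n => by
    have := hN0 (N0 + n) (by omega)
    simp only [hy]; linarith
  set e : ℕ → ℝ := fun k => y k + P with he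
  have her : ∀ n, e (n + 2) = a * (2 * P - e (n + 1)) * e (n + 1) + b * e n := by
    intro n
    have := e_rec ha hyx n
    simp only [he]
    rw [← hPdef] at this
    rw [this]; ring
  set c : ℝ := a * (P - (P + 1 / (1 - b)) / 2) with hc
  have hc0 : 0 < c := mul_pos ha (by linarith)
  have hcA : ∀ n, c ≤ a * (2 * P - e (n + 1)) := by
    intro n
    apply mul_le_mul_of_nonneg_left _ ha.le
    have := hyu (n + 1)
    simp only [he]; linarith
  have heC : ∀ n, |e n| ≤ C + P := by
    intro n
    simp only [he]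
    calc |y n + P| ≤ |y n| + |P| := abs_add_le _ _
      _ ≤ C + P := by rw [abs_of_pos hP]; linarith [hyC n]
  have hconv : Tendsto e atTop (𝓝 0) → Tendsto x atTop (𝓝 (-P)) := by
    intro h
    have h1 : Tendsto y atTop (𝓝 (-P)) := by
      have := h.sub_const P
      simpa [he] using this
    have h2 : Tendsto (fun k => x (k + N0)) atTop (𝓝 (-P)) := by
      refine h1.congr fun k => ?_
      simp only [hy]; rw [add_comm]
    exact (tendsto_add_atTop_iff_nat N0).1 h2
  rcases tri hb (fun n => hc0.trans_le (hcA n)) her with ⟨N, hN⟩ | ⟨N, hN⟩ | h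
  · rcases eq_or_lt_of_le (show 0 ≤ e (N + 1) + b * e N by
      have := hN N le_rfl
      have := hN (N + 1) (by omega)
      positivity) with h0 | h0
    · left
      apply hconv
      have h1 := hN N le_rfl
      have h2 := hN (N + 1) (by omega)
      have h3 : 0 ≤ b * e N := by positivity
      have h4 : e (N + 1) = 0 := by linarith
      have h5 : e N = 0 := by
        have : b * e N = 0 := by linarith
        rcases mul_eq_zero.1 this with h | h
        · exact absurd h hb.ne'
        · exact h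
      have h6 := zero_forever her h5 h4
      exact tendsto_const_nhds.congr' (eventually_atTop.2 ⟨N, fun n hn => (h6 n hn).symm⟩)
    · right
      obtain ⟨δ, hδ, hlow⟩ := case_pos ha hb hκ hc0 her hcA hN h0
      obtain ⟨N', hN'⟩ := pos_of_lower ha hb hb1 hab hyx hyC hδ
        ⟨N + 2, fun n hn => by
          have := hlow n hn
          simp only [he] at this
          rw [← hPdef]; linarith⟩
      refine ⟨N0 + N', fun n hn => ?_⟩
      have := hN' (n - N0) (by omega)
      simp only [hy] at this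
      rwa [show N0 + (n - N0) = n by omega] at this
  · left
    apply hconv
    have h6 := case_neg ha hb hκ hP her heC hN
    exact tendsto_const_nhds.congr' (eventually_atTop.2 ⟨N, fun n hn => (h6 n hn).symm⟩)
  · left
    apply hconv
    have k0 := tendsto_zero_of_contract hb h 0
    have k1 := tendsto_zero_of_contract hb h 1
    apply tendsto_zero_of_even_odd hb hb1 (C := max |e 0| |e 1|)
    · intro m
      have := k0 m
      rw [add_zero] at this
      exact this.trans (mul_le_mul_of_nonneg_right (le_max_left _ _) (by positivity))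
    · intro m
      exact (k1 m).trans (mul_le_mul_of_nonneg_right (le_max_right _ _) (by positivity))

end Pool.Agent.H48.HN
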