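import Mathlib

/-!
The Henon map, sinks, attractors, strange attractors.
-/

namespace Pool.Agent.H48.HN

open Topology

/-- The Henon map `(x, y) ↦ (1 - a x^2 + y, b x)`. -/
def henon (a b : ℝ) (p : ℝ × ℝ) : ℝ × ℝ := (1 - a * p.1 ^ 2 + p.2, b * p.1)

/-- The derivative of the Henon map at `p`. -/
def jac (a b : ℝ) (p : ℝ × ℝ) : Matrix (Fin 2) (Fin 2) ℝ := !![-2 * a * p.1, 1; b, 0]

/-- The derivative of the `n`-th iterate at `p`: the product of the derivatives along the orbit. -/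
def jacIter (a b : ℝ) (p : ℝ × ℝ) : ℕ → Matrix (Fin 2) (Fin 2) ℝ
  | 0 => 1
  | n + 1 => jac a b ((henon a b)^[n] p) * jacIter a b p n

/-- `O` is a stable periodic orbit: the orbit of a point `p` of least period `n ≥ 1` such that all
complex eigenvalues of the derivative of the `n`-th iterate at `p` have modulus less than one. -/
def IsSink (a b : ℝ) (O : Set (ℝ × ℝ)) : Prop :=
  ∃ (p : ℝ × ℝ) (n : ℕ), 0 < n ∧ Function.minimalPeriod (henon a b) p = n ∧
    O = {q | ∃ i < n, q = (henon a b)^[i] p} ∧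
    ∀ μ : ℂ, (((jacIter a b p n).map (algebraMap ℝ ℂ)).charpoly).IsRoot μ → ‖μ‖ < 1

/-- `A` is an attractor: a compact invariant set which is the intersection of the forward images of
one of its neighbourhoods, and some (full) orbit in `A` is dense in `A`. -/
structure IsAttractor (a b : ℝ) (A : Set (ℝ × ℝ)) : Prop where
  compact : IsCompact A
  invariant : henon a b '' A = A
  attracting : ∃ L ∈ 𝓝ˢ A, (⋂ n : ℕ, (henon a b)^[n] '' L) = A
  transitive : ∃ z ∈ A, A ⊆ closure
    {w | ∃ n : ℕ, w = (henon a b)^[n] z ∨ (henon a b)^[n] w = z}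

/-- Euclidean distance in the plane. -/
noncomputable def eucl (u v : ℝ × ℝ) : ℝ := Real.sqrt ((u.1 - v.1) ^ 2 + (u.2 - v.2) ^ 2)

/-- `A` is a strange attractor: an attractor with sensitive dependence on initial conditions. -/
def IsStrangeAttractor (a b : ℝ) (A : Set (ℝ × ℝ)) : Prop :=
  IsAttractor a b A ∧ ∃ δ > 0, ∀ U : Set (ℝ × ℝ), IsOpen U → (A ∩ U).Nonempty →
    ∃ u ∈ A ∩ U, ∃ v ∈ A ∩ U, ∃ n : ℕ, δ < eucl ((henon a b)^[n] u) ((henon a b)^[n] v)

theorem henon_continuous (a b : ℝ) : Continuous (henon a b) := by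
  unfold henon; fun_prop

/-- The inverse map. -/
noncomputable def henonInv (a b : ℝ) (q : ℝ × ℝ) : ℝ × ℝ := (q.2 / b, q.1 - 1 + a * (q.2 / b) ^ 2)

theorem henonInv_continuous {b : ℝ} (a : ℝ) : Continuous (henonInv a b) := by
  unfold henonInv; fun_prop

theorem henon_leftInv {a b : ℝ} (hb : b ≠ 0) (p : ℝ × ℝ) : henonInv a b (henon a b p) = p := by
  unfold henonInv henon
  ext
  · simp [hb]
  · simp only [mul_div_cancel_left₀ p.1 hb]; ring

theorem henon_rightInv {a b : ℝ} (hb : b ≠ 0) (p : ℝ × ℝ) : henon a b (henonInv a b p) = p := by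
  unfold henonInv henon
  ext
  · ring
  · simp only []; field_simp

/-- The Henon map as a homeomorphism. -/
noncomputable def henonHomeo (a : ℝ) {b : ℝ} (hb : b ≠ 0) : (ℝ × ℝ) ≃ₜ (ℝ × ℝ) where
  toFun := henon a b
  invFun := henonInv a b
  left_inv := henon_leftInv hb
  right_inv := henon_rightInv hb
  continuous_toFun := henon_continuous a b
  continuous_invFun := henonInv_continuous a

theorem henonHomeo_coe (a : ℝ) {b : ℝ} (hb : b ≠ 0) : ⇑(henonHomeo a hb) = henon a b := rfl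

theorem henon_injective {a b : ℝ} (hb : b ≠ 0) : Function.Injective (henon a b) :=
  (henonHomeo a hb).injective

/-- The scalar sequence of an orbit. -/
noncomputable def xs (a b : ℝ) (p : ℝ × ℝ) : ℕ → ℝ
  | 0 => p.2 / b
  | n + 1 => ((henon a b)^[n] p).1

theorem snd_iter {a b : ℝ} (hb : b ≠ 0) (p : ℝ × ℝ) (n : ℕ) :
    ((henon a b)^[n] p).2 = b * xs a b p n := by
  cases n with
  | zero => simp [xs]; field_simp
  | succ n => rw [Function.iterate_succ_apply']; rfl

theorem iter_eq {a b : ℝ} (hb : b ≠ 0) (p : ℝ × ℝ) (n : ℕ) :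
    (henon a b)^[n] p = (xs a b p (n + 1), b * xs a b p n) :=
  Prod.ext rfl (snd_iter hb p n)

theorem xs_rec {a b : ℝ} (hb : b ≠ 0) (p : ℝ × ℝ) (n : ℕ) :
    xs a b p (n + 2) = 1 - a * xs a b p (n + 1) ^ 2 + b * xs a b p n := by
  have h := snd_iter (a := a) hb p n
  change ((henon a b)^[n + 1] p).1 = 1 - a * ((henon a b)^[n] p).1 ^ 2 + b * xs a b p n
  rw [Function.iterate_succ_apply', ← h]
  rfl

end Pool.Agent.H48.HN
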