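import Pool.Agent.H48.HN.Small

/-!
The region `0 < b < 1`, `0 < a < (1-b)^2`: no compact invariant set carries sensitive dependence
on initial conditions.
-/

namespace Pool.Agent.H48.HN

open Filter Topology Set

theorem eucl_le {u v : ℝ × ℝ} {r : ℝ} (h : dist u v ≤ r) : eucl u v ≤ 2 * r := by
  have h0 : 0 ≤ r := dist_nonneg.trans h
  have h1 : |u.1 - v.1| ≤ r := by
    have := (le_max_left (dist u.1 v.1) (dist u.2 v.2)).trans h
    rwa [Real.dist_eq] at this
  have h2 : |u.2 - v.2| ≤ r := by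
    have := (le_max_right (dist u.1 v.1) (dist u.2 v.2)).trans h
    rwa [Real.dist_eq] at this
  unfold eucl
  apply Real.sqrt_le_iff.2
  refine ⟨by linarith, ?_⟩
  have h3 : (u.1 - v.1) ^ 2 ≤ r ^ 2 := by
    rw [← sq_abs]; exact pow_le_pow_left₀ (abs_nonneg _) h1 2
  have h4 : (u.2 - v.2) ^ 2 ≤ r ^ 2 := by
    rw [← sq_abs]; exact pow_le_pow_left₀ (abs_nonneg _) h2 2
  nlinarith [sq_nonneg r]

theorem iter_mem {a b : ℝ} {A : Set (ℝ × ℝ)} (hinv : henon a b '' A = A) {w : ℝ × ℝ} (hw : w ∈ A)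
    (n : ℕ) : (henon a b)^[n] w ∈ A := by
  induction n with
  | zero => exact hw
  | succ n ih =>
    rw [Function.iterate_succ_apply', ← hinv]
    exact mem_image_of_mem _ ih

theorem iter_continuous (a b : ℝ) (n : ℕ) : Continuous (henon a b)^[n] :=
  (henon_continuous a b).iterate n

/-- In every compact nonempty invariant set there are, for every `δ`, relatively open sets on which
all iterates stay `δ`-close. -/
theorem no_sensitive {a b : ℝ} (ha : 0 < a) (hb : 0 < b) (hb1 : b < 1) (hab : a < (1 - b) ^ 2)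
    {A : Set (ℝ × ℝ)} (hA : IsCompact A) (hne : A.Nonempty) (hinv : henon a b '' A = A)
    {δ : ℝ} (hδ : 0 < δ) :
    ∃ U : Set (ℝ × ℝ), IsOpen U ∧ (A ∩ U).Nonempty ∧ ∀ u ∈ A ∩ U, ∀ v ∈ A ∩ U, ∀ n : ℕ,
      eucl ((henon a b)^[n] u) ((henon a b)^[n] v) ≤ δ := by
  obtain ⟨C, hC⟩ : ∃ C, ∀ w ∈ A, |w.1| ≤ C := by
    obtain ⟨C, hC⟩ := (hA.image continuous_fst).isBounded.exists_norm_le
    exact ⟨C, fun w hw => hC _ (mem_image_of_mem _ hw)⟩
  set δ' : ℝ := δ / 4 with hδ'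
  have hδ'0 : 0 < δ' := by positivity
  have hε : ∀ c : F2 a b, ∃ ε > 0, ε ≤ δ' ∧ ∀ w, dist w (c : ℝ × ℝ) ≤ ε →
      dist (henon a b w) (henon a b c) ≤ δ' := by
    intro c
    obtain ⟨ε, hε0, hε⟩ := Metric.continuousAt_iff.1
      ((henon_continuous a b).continuousAt (x := (c : ℝ × ℝ))) δ' hδ'0
    refine ⟨min (ε / 2) δ', by positivity, min_le_right _ _, fun w hw => ?_⟩
    have h1 : min (ε / 2) δ' ≤ ε / 2 := min_le_left _ _
    exact (hε (by linarith)).le
  choose ε hε0 hεδ hεH using hε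
  have : CompactSpace A := isCompact_iff_compactSpace.1 hA
  have : Nonempty A := hne.to_subtype
  have : Finite (F2 a b) := (F2_finite ha).to_subtype
  let S : ℕ × F2 a b → Set A := fun i =>
    {w | ∀ m, i.1 ≤ m → dist ((henon a b)^[2 * m] (w : ℝ × ℝ)) (i.2 : ℝ × ℝ) ≤ ε i.2}
  have hSc : ∀ i, IsClosed (S i) := by
    intro i
    have : S i = ⋂ m, ⋂ (_ : i.1 ≤ m),
        {w : A | dist ((henon a b)^[2 * m] (w : ℝ × ℝ)) (i.2 : ℝ × ℝ) ≤ ε i.2} := by
      ext w; simp [S]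
    rw [this]
    refine isClosed_iInter fun m => isClosed_iInter fun _ => isClosed_le ?_ continuous_const
    exact ((iter_continuous a b _).comp continuous_subtype_val).dist continuous_const
  have hSU : ⋃ i, S i = univ := by
    apply eq_univ_of_forall
    intro w
    obtain ⟨c, hc, ht⟩ := tendsto_F2 ha hb hb1 hab
      (fun n => hC _ (iter_mem hinv w.2 n))
    obtain ⟨N, hN⟩ := Metric.tendsto_atTop.1 ht (ε ⟨c, hc⟩) (hε0 _)
    exact mem_iUnion.2 ⟨(N, ⟨c, hc⟩), fun m hm => (hN m hm).le⟩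
  obtain ⟨⟨N, c⟩, w0, hw0⟩ := nonempty_interior_of_iUnion_of_closed hSc hSU
  -- shrink
  have hev : ∀ᶠ w : A in 𝓝 w0, ∀ n ∈ Finset.range (2 * N),
      dist ((henon a b)^[n] (w : ℝ × ℝ)) ((henon a b)^[n] (w0 : ℝ × ℝ)) < δ' := by
    rw [Filter.eventually_all_finset]
    intro n _
    have hc : Continuous fun w : A => (henon a b)^[n] (w : ℝ × ℝ) :=
      (iter_continuous a b n).comp continuous_subtype_val
    exact (Metric.tendsto_nhds.1 (hc.tendsto w0)) δ' hδ'0
  have hS0 : ∀ᶠ w : A in 𝓝 w0, w ∈ S (N, c) := mem_interior_iff_mem_nhds.1 hw0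
  have hev2 : ∀ᶠ w : A in 𝓝 w0, w ∈ S (N, c) ∧ ∀ n ∈ Finset.range (2 * N),
      dist ((henon a b)^[n] (w : ℝ × ℝ)) ((henon a b)^[n] (w0 : ℝ × ℝ)) < δ' :=
    hS0.and hev
  obtain ⟨V, hV, hVo, hw0V⟩ := eventually_nhds_iff.1 hev2
  obtain ⟨U, hUo, hUV⟩ := isOpen_induced_iff.1 hVo
  refine ⟨U, hUo, ⟨w0, w0.2, ?_⟩, ?_⟩
  · have : w0 ∈ Subtype.val ⁻¹' U := by rw [hUV]; exact hw0V
    exact this
  · rintro u ⟨huA, huU⟩ v ⟨hvA, hvU⟩ n
    have huV : (⟨u, huA⟩ : A) ∈ V := by rw [← hUV]; exact huU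
    have hvV : (⟨v, hvA⟩ : A) ∈ V := by rw [← hUV]; exact hvU
    obtain ⟨hu1, hu2⟩ := hV _ huV
    obtain ⟨hv1, hv2⟩ := hV _ hvV
    have hdist : dist ((henon a b)^[n] u) ((henon a b)^[n] v) ≤ 2 * δ' := by
      rcases lt_or_ge n (2 * N) with hn | hn
      · have h1 := hu2 n (Finset.mem_range.2 hn)
        have h2 := hv2 n (Finset.mem_range.2 hn)
        have h3 := dist_triangle_right ((henon a b)^[n] u) ((henon a b)^[n] v)
          ((henon a b)^[n] (w0 : ℝ × ℝ))
        simp only [] at h1 h2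
        linarith
      · rcases Nat.even_or_odd' n with ⟨m, rfl | rfl⟩
        · have h1 := hu1 m (show N ≤ m by omega)
          have h2 := hv1 m (show N ≤ m by omega)
          have h3 := dist_triangle_right ((henon a b)^[2 * m] u) ((henon a b)^[2 * m] v)
            (c : ℝ × ℝ)
          have h4 := hεδ c
          simp only [] at h1 h2
          linarith
        · have h1 := hεH c _ (hu1 m (show N ≤ m by omega))
          have h2 := hεH c _ (hv1 m (show N ≤ m by omega))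
          rw [Function.iterate_succ_apply', Function.iterate_succ_apply']
          have h3 := dist_triangle_right (henon a b ((henon a b)^[2 * m] u))
            (henon a b ((henon a b)^[2 * m] v)) (henon a b (c : ℝ × ℝ))
          simp only [] at h1 h2
          linarith
    have := eucl_le hdist
    linarith

/-- No strange attractor in the region. -/
theorem no_strange {a b : ℝ} (ha : 0 < a) (hb : 0 < b) (hb1 : b < 1) (hab : a < (1 - b) ^ 2)
    (A : Set (ℝ × ℝ)) : ¬ IsStrangeAttractor a b A := by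
  rintro ⟨hA, δ, hδ, hs⟩
  obtain ⟨z, hz, -⟩ := hA.transitive
  obtain ⟨U, hU, hne, hUU⟩ := no_sensitive ha hb hb1 hab hA.compact ⟨z, hz⟩ hA.invariant hδ
  obtain ⟨u, hu, v, hv, n, hn⟩ := hs U hU hne
  exact absurd hn (not_lt.2 (hUU u hu v hv n))

end Pool.Agent.H48.HN
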