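import Mathlib

/-!
Bounded solutions of `x (n+2) = 1 - a x(n+1)^2 + b x n` for `0 < b < 1`, `0 < a < (1-b)^2`.
-/

namespace Pool.Agent.H48.HN

open Filter Topology

/-- Sign trichotomy for a linear recurrence with positive coefficients. -/
theorem tri {f A : ℕ → ℝ} {b : ℝ} (hb : 0 < b) (hA : ∀ n, 0 < A n)
    (hf : ∀ n, f (n + 2) = A n * f (n + 1) + b * f n) :
    (∃ N, ∀ n, N ≤ n → 0 ≤ f n) ∨ (∃ N, ∀ n, N ≤ n → f n ≤ 0) ∨
      (∀ n, |f (n + 2)| ≤ b * |f n|) := by
  by_cases h1 : ∃ N, 0 ≤ f N ∧ 0 ≤ f (N + 1)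
  · obtain ⟨N, h0, h1⟩ := h1
    left
    refine ⟨N, ?_⟩
    have key : ∀ k, 0 ≤ f (N + k) ∧ 0 ≤ f (N + k + 1) := by
      intro k
      induction k with
      | zero => exact ⟨h0, h1⟩
      | succ k ih =>
        refine ⟨ih.2, ?_⟩
        have := hf (N + k)
        have e : N + (k + 1) + 1 = N + k + 2 := by ring
        rw [e, this]
        have := mul_nonneg (hA (N + k)).le ih.2
        have := mul_nonneg hb.le ih.1
        linarith
    intro n hn
    obtain ⟨k, rfl⟩ := Nat.exists_eq_add_of_le hn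
    exact (key k).1
  by_cases h2 : ∃ N, f N ≤ 0 ∧ f (N + 1) ≤ 0
  · obtain ⟨N, h0, h1⟩ := h2
    right; left
    refine ⟨N, ?_⟩
    have key : ∀ k, f (N + k) ≤ 0 ∧ f (N + k + 1) ≤ 0 := by
      intro k
      induction k with
      | zero => exact ⟨h0, h1⟩
      | succ k ih =>
        refine ⟨ih.2, ?_⟩
        have := hf (N + k)
        have e : N + (k + 1) + 1 = N + k + 2 := by ring
        rw [e, this]
        have := mul_nonneg (hA (N + k)).le (neg_nonneg.2 ih.2)
        have := mul_nonneg hb.le (neg_nonneg.2 ih.1)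
        nlinarith
    intro n hn
    obtain ⟨k, rfl⟩ := Nat.exists_eq_add_of_le hn
    exact (key k).1
  right; right
  push Not at h1 h2
  intro n
  rcases le_or_gt 0 (f n) with h | h
  · have h3 := h1 n h
    have h4 : 0 < f (n + 2) := by
      by_contra hc
      exact absurd (h2 (n + 1) h3.le) (by simpa using not_lt.1 hc)
    rw [abs_of_pos h4, abs_of_nonneg h, hf n]
    have := mul_pos (hA n) (neg_pos.2 h3)
    nlinarith
  · have h3 := h2 n h.le
    have h4 : f (n + 2) < 0 := h1 (n + 1) h3.le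
    rw [abs_of_neg h4, abs_of_neg h, hf n]
    have := mul_pos (hA n) h3
    nlinarith

/-- If `|f (n+2)| ≤ b |f n|` with `b < 1` then `f` tends to `0`. -/
theorem tendsto_zero_of_contract {f : ℕ → ℝ} {b : ℝ} (hb : 0 < b)
    (h : ∀ n, |f (n + 2)| ≤ b * |f n|) (r : ℕ) :
    ∀ m, |f (2 * m + r)| ≤ |f r| * b ^ m := by
  intro m
  induction m with
  | zero => simp
  | succ m ih =>
    have e : 2 * (m + 1) + r = (2 * m + r) + 2 := by ring
    rw [e]
    calc |f (2 * m + r + 2)| ≤ b * |f (2 * m + r)| := h _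
      _ ≤ b * (|f r| * b ^ m) := mul_le_mul_of_nonneg_left ih hb.le
      _ = |f r| * b ^ (m + 1) := by ring

/-- Upper bound: `limsup x ≤ 1/(1-b)`. -/
theorem eventually_le {x : ℕ → ℝ} {a b : ℝ} (ha : 0 < a) (hb : 0 < b) (hb1 : b < 1)
    (hx : ∀ n, x (n + 2) = 1 - a * x (n + 1) ^ 2 + b * x n) {ε : ℝ} (hε : 0 < ε) :
    ∃ N, ∀ n, N ≤ n → x n ≤ 1 / (1 - b) + ε := by
  have h1b : 0 < 1 - b := by linarith
  set C : ℝ := |x 0 - 1 / (1 - b)| + |x 1 - 1 / (1 - b)| with hC
  have hCnn : 0 ≤ C := by positivity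
  have key : ∀ m, x (2 * m) - 1 / (1 - b) ≤ C * b ^ m ∧
      x (2 * m + 1) - 1 / (1 - b) ≤ C * b ^ m := by
    intro m
    induction m with
    | zero =>
      simp only [mul_zero, zero_add, pow_zero, mul_one]
      have := le_abs_self (x 0 - 1 / (1 - b))
      have := le_abs_self (x 1 - 1 / (1 - b))
      have := abs_nonneg (x 0 - 1 / (1 - b))
      have := abs_nonneg (x 1 - 1 / (1 - b))
      constructor <;> linarith
    | succ m ih =>
      have hid : 1 / (1 - b) = 1 + b * (1 / (1 - b)) := by field_simp; ring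
      have e1 : 2 * (m + 1) = 2 * m + 2 := by ring
      have e2 : 2 * (m + 1) + 1 = (2 * m + 1) + 2 := by ring
      refine ⟨?_, ?_⟩
      · rw [e1, hx (2 * m), show C * b ^ (m + 1) = b * (C * b ^ m) by ring]
        have h1 := mul_nonneg ha.le (sq_nonneg (x (2 * m + 1)))
        have h2 := mul_le_mul_of_nonneg_left ih.1 hb.le
        rw [mul_sub] at h2
        linarith
      · rw [e2, hx (2 * m + 1), show C * b ^ (m + 1) = b * (C * b ^ m) by ring]
        have h1 := mul_nonneg ha.le (sq_nonneg (x (2 * m + 1 + 1)))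
        have h2 := mul_le_mul_of_nonneg_left ih.2 hb.le
        rw [mul_sub] at h2
        linarith
  have ht : Tendsto (fun m : ℕ => C * b ^ m) atTop (𝓝 0) := by
    have := (tendsto_pow_atTop_nhds_zero_of_lt_one hb.le hb1).const_mul C
    simpa using this
  obtain ⟨M, hM⟩ := (ht.eventually (eventually_le_nhds hε)).exists_forall_of_atTop
  refine ⟨2 * M, fun n hn => ?_⟩
  rcases Nat.even_or_odd' n with ⟨m, rfl | rfl⟩
  · have := (key m).1
    have := hM m (by omega)
    linarith
  · have := (key m).2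
    have := hM m (by omega)
    linarith

/-- The modulus of the negative fixed point. -/
noncomputable def PP (a b : ℝ) : ℝ := ((1 - b) + Real.sqrt ((1 - b) ^ 2 + 4 * a)) / (2 * a)

theorem PP_pos {a b : ℝ} (ha : 0 < a) (hb1 : b < 1) : 0 < PP a b := by
  unfold PP
  have : 0 < 1 - b := by linarith
  positivity

theorem PP_eq {a b : ℝ} (ha : 0 < a) : a * PP a b ^ 2 = (1 - b) * PP a b + 1 := by
  unfold PP
  have h : Real.sqrt ((1 - b) ^ 2 + 4 * a) ^ 2 = (1 - b) ^ 2 + 4 * a :=
    Real.sq_sqrt (by positivity)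
  set r := Real.sqrt ((1 - b) ^ 2 + 4 * a)
  field_simp
  nlinarith

theorem PP_gt {a b : ℝ} (ha : 0 < a) (hb1 : b < 1) (hab : a < (1 - b) ^ 2) :
    1 / (1 - b) < PP a b := by
  have h1b : 0 < 1 - b := by linarith
  have hP := PP_pos ha hb1
  have he := PP_eq (b := b) ha
  by_contra hc
  push Not at hc
  have h1 : PP a b * (1 - b) ≤ 1 := by
    rw [le_div_iff₀ h1b] at hc; exact hc
  have h2 : a * PP a b < (1 - b) := by
    have : a * PP a b < (1 - b) ^ 2 * PP a b := by
      exact mul_lt_mul_of_pos_right hab hP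
    nlinarith
  nlinarith

/-- The quadratic `a s^2 - (1-b) s - 1` is negative on `[0, P)`. -/
theorem quad_neg {a b s : ℝ} (ha : 0 < a) (hb1 : b < 1) (hs : 0 ≤ s) (hsP : s < PP a b) :
    a * s ^ 2 - (1 - b) * s - 1 < 0 := by
  have h1b : 0 < 1 - b := by linarith
  have hP := PP_pos ha hb1
  have he := PP_eq (b := b) ha
  -- a P - (1-b) = 1/P > 0
  have h1 : a * PP a b * s ≤ a * PP a b * PP a b := by
    have := mul_pos ha hP
    nlinarith
  -- P * (a s^2 - (1-b)s - 1) = (s - P)(a P s + 1)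
  have h2 : PP a b * (a * s ^ 2 - (1 - b) * s - 1) = (s - PP a b) * (a * PP a b * s + 1) := by
    linear_combination s * he
  have h3 : 0 < a * PP a b * s + 1 := by positivity
  have h4 : PP a b * (a * s ^ 2 - (1 - b) * s - 1) < 0 := by
    rw [h2]; exact mul_neg_of_neg_of_pos (by linarith) h3
  by_contra hc
  push Not at hc
  have := mul_nonneg hP.le hc
  linarith

end Pool.Agent.H48.HN
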