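import Pool.Agent.H48.HN.Small
import Pool.Agent.H48.HN.Big

/-!
The region `0 < b < 1`, `0 < a < (1-b)^2`: exactly one sink, except that there is none when
`4 a = 3 (1-b)^2`.
-/

namespace Pool.Agent.H48.HN

open Filter Topology Set

/-- Jury conditions, necessary: the real quadratic is positive at `1`. -/
theorem jury_one {t d : ℝ} (h : ∀ μ : ℂ, μ ^ 2 - t * μ + d = 0 → ‖μ‖ < 1) : 0 < 1 - t + d := by
  by_contra hc
  push Not at hc
  have hD : 0 ≤ t ^ 2 - 4 * d := by nlinarith [sq_nonneg (t - 2)]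
  have hs := Real.sq_sqrt hD
  set s := Real.sqrt (t ^ 2 - 4 * d) with hsd
  have hs0 : 0 ≤ s := Real.sqrt_nonneg _
  have hroot : (((t + s) / 2 : ℝ) : ℂ) ^ 2 - t * (((t + s) / 2 : ℝ) : ℂ) + d = 0 := by
    have : ((t + s) / 2) ^ 2 - t * ((t + s) / 2) + d = 0 := by nlinarith
    exact_mod_cast this
  have h1 := h _ hroot
  rw [Complex.norm_real, Real.norm_eq_abs, abs_lt] at h1
  have h2 : s < 2 - t := by linarith [h1.2]
  nlinarith

/-- Jury conditions, necessary: the real quadratic is positive at `-1`. -/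
theorem jury_neg {t d : ℝ} (h : ∀ μ : ℂ, μ ^ 2 - t * μ + d = 0 → ‖μ‖ < 1) : 0 < 1 + t + d := by
  have := jury_one (t := -t) (d := d) (by
    intro μ hμ
    rw [← norm_neg]
    apply h
    rw [← hμ]; push_cast; ring)
  linarith

/-- Jury conditions, sufficient. -/
theorem jury_suff {t d : ℝ} (h1 : 0 < 1 - t + d) (h2 : 0 < 1 + t + d) (h3 : d < 1) :
    ∀ μ : ℂ, μ ^ 2 - t * μ + d = 0 → ‖μ‖ < 1 := by
  intro μ hμ
  have hre := congrArg Complex.re hμ
  have him := congrArg Complex.im hμ
  simp only [pow_two, Complex.add_re, Complex.sub_re, Complex.mul_re, Complex.ofReal_re,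
    Complex.ofReal_im, Complex.zero_re, zero_mul, sub_zero] at hre
  simp only [pow_two, Complex.add_im, Complex.sub_im, Complex.mul_im, Complex.ofReal_re,
    Complex.ofReal_im, Complex.zero_im, zero_mul, add_zero] at him
  set u := μ.re
  set v := μ.im
  have hv : v * (2 * u - t) = 0 := by linarith
  have hns : ‖μ‖ ^ 2 = u ^ 2 + v ^ 2 := by
    rw [← Complex.normSq_eq_norm_sq, Complex.normSq_apply]; ring
  have key : u ^ 2 + v ^ 2 < 1 := by
    rcases mul_eq_zero.1 hv with h | h
    · rw [h] at hre ⊢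
      by_contra hc
      push Not at hc
      have hu : 1 ≤ u ^ 2 := by linarith
      -- (1-u)(1-(t-u)) > 0, (1+u)(1+(t-u)) > 0, u (t-u) = d < 1
      have e1 : 0 < (1 - u) * (1 - (t - u)) := by nlinarith
      have e2 : 0 < (1 + u) * (1 + (t - u)) := by nlinarith
      rcases le_or_gt 0 u with h0 | h0
      · have hu1 : 1 ≤ u := by nlinarith
        have : 1 - (t - u) < 0 := by
          by_contra hcc; push Not at hcc
          nlinarith [mul_nonneg (sub_nonneg.2 hu1) hcc]
        nlinarith
      · have hu1 : u ≤ -1 := by nlinarith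
        have : 1 + (t - u) < 0 := by
          by_contra hcc; push Not at hcc
          nlinarith [mul_nonneg (show 0 ≤ -(1 + u) by linarith) hcc]
        nlinarith
    · have ht : t = 2 * u := by linarith
      rw [ht] at hre
      nlinarith
  rw [← hns] at key
  have h0 := norm_nonneg μ
  nlinarith

theorem charpoly_root {M : Matrix (Fin 2) (Fin 2) ℝ} {μ : ℂ} :
    ((M.map (algebraMap ℝ ℂ)).charpoly).IsRoot μ ↔ μ ^ 2 - (M.trace : ℂ) * μ + (M.det : ℂ) = 0 := by
  have h1 : (M.map (algebraMap ℝ ℂ)).trace = (M.trace : ℂ) := by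
    simp [Matrix.trace_fin_two]
  have h2 : (M.map (algebraMap ℝ ℂ)).det = (M.det : ℂ) := by
    simp [Matrix.det_fin_two]
  rw [Matrix.charpoly_fin_two, Polynomial.IsRoot.def, h1, h2]
  simp

theorem pow_pos_of_sq {t : ℝ} (h : t ≠ 0) : 0 < t ^ 2 := by positivity

/-- The points of period at most two. -/
theorem F2_cases {a b : ℝ} (ha : 0 < a) {q : ℝ × ℝ} (h : q ∈ F2 a b) :
    (henon a b q = q ∧ q.1 = -PP a b) ∨
    (henon a b q = q ∧ q.1 = PP a b - (1 - b) / a ∧ ({q, henon a b q} : Set (ℝ × ℝ)) = orb a b 1) ∨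
    (henon a b q ≠ q ∧ 3 * (1 - b) ^ 2 < 4 * a ∧
      ({q, henon a b q} : Set (ℝ × ℝ)) = orb a b 2) := by
  obtain ⟨h1, h2, h3⟩ := F2_mem h
  set x := q.1 with hx
  set x' := (henon a b q).1 with hx'
  have hq : q = (x, b * x') := Prod.ext rfl h3
  have hHq : henon a b q = (x', b * x) := Prod.ext rfl rfl
  by_cases he : x = x'
  · have hquad : a * x ^ 2 + (1 - b) * x - 1 = 0 := by rw [← he] at h2; linarith
    have hP := PP_eq (b := b) ha
    have hprod : (x + PP a b) * (x - (PP a b - (1 - b) / a)) = 0 := by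
      have : a * ((x + PP a b) * (x - (PP a b - (1 - b) / a))) = 0 := by
        have h4 : a * ((x + PP a b) * (x - (PP a b - (1 - b) / a))) =
          (a * x ^ 2 + (1 - b) * x - 1) - (a * PP a b ^ 2 - ((1 - b) * PP a b + 1)) := by
          field_simp; ring
        rw [h4, hquad, hP]; ring
      rcases mul_eq_zero.1 this with h | h
      · exact absurd h ha.ne'
      · exact h
    have hfix : henon a b q = q := by rw [hHq, hq, he]
    rcases mul_eq_zero.1 hprod with h5 | h5
    · left; exact ⟨hfix, by linarith⟩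
    · right; left
      have hxv : x = PP a b - (1 - b) / a := by linarith
      refine ⟨hfix, hxv, ?_⟩
      rw [hfix]
      have : q = (PP a b - (1 - b) / a, b * (PP a b - (1 - b) / a)) := by
        rw [← hxv]; exact hq.trans (by rw [← he])
      rw [this]
      exact Set.pair_eq_singleton _
  · right; right
    have hne : henon a b q ≠ q := by
      intro hh
      apply he
      rw [hx', hh]
    have hsum : a * (x + x') = 1 - b := by
      have h4 : (x - x') * (a * (x + x') - (1 - b)) = 0 := by linear_combination h2 - h1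
      rcases mul_eq_zero.1 h4 with h | h
      · exact absurd (sub_eq_zero.1 h) he
      · linarith
    have hsq : (2 * a * x - (1 - b)) ^ 2 = 4 * a - 3 * (1 - b) ^ 2 := by
      have h5 : a * (a * x ^ 2) = a * (1 - (1 - b) * x') := by rw [h2]; ring
      have h6 : a * x' = (1 - b) - a * x := by linarith
      have : a * ((1 - b) * x') = (1 - b) * ((1 - b) - a * x) := by rw [← h6]; ring
      nlinarith
    have hpos : 0 < (2 * a * x - (1 - b)) ^ 2 := by
      apply pow_pos_of_sq
      intro h0
      apply he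
      have : a * x = a * x' := by linarith
      exact mul_left_cancel₀ ha.ne' this
    refine ⟨hne, by linarith, ?_⟩
    set D : ℝ := 4 * a - 3 * (1 - b) ^ 2 with hD
    have hDs : Real.sqrt D ^ 2 = D := by
      apply Real.sq_sqrt; rw [← hsq]; positivity
    set r := Real.sqrt D with hr
    have hx2 : ∀ t t' : ℝ, 2 * a * t = (1 - b) + r → 2 * a * t' = (1 - b) - r →
        ((1 - b) + r) / (2 * a) = t ∧ ((1 - b) - r) / (2 * a) = t' := by
      intro t t' ht ht'
      constructor
      · rw [← ht]; field_simp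
      · rw [← ht']; field_simp
    have hfac : (2 * a * x - (1 - b) - r) * (2 * a * x - (1 - b) + r) = 0 := by
      linear_combination hsq - hDs
    have hset : ({q, henon a b q} : Set (ℝ × ℝ)) = {(x, b * x'), (x', b * x)} := by
      rw [hHq, ← hq]
    rcases mul_eq_zero.1 hfac with h7 | h7
    · obtain ⟨e1, e2⟩ := hx2 x x' (by linarith) (by linarith)
      rw [hset]
      change _ = ({(((1 - b) + r) / (2 * a), b * (((1 - b) - r) / (2 * a))),
          (((1 - b) - r) / (2 * a), b * (((1 - b) + r) / (2 * a)))} : Set (ℝ × ℝ))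
      rw [e1, e2]
    · obtain ⟨e1, e2⟩ := hx2 x' x (by linarith) (by linarith)
      rw [hset]
      change _ = ({(((1 - b) + r) / (2 * a), b * (((1 - b) - r) / (2 * a))),
          (((1 - b) - r) / (2 * a), b * (((1 - b) + r) / (2 * a)))} : Set (ℝ × ℝ))
      rw [e1, e2, Set.pair_comm]

theorem orbit_one {a b : ℝ} {p : ℝ × ℝ} (h : henon a b p = p) :
    {q | ∃ i < 1, q = (henon a b)^[i] p} = ({p, henon a b p} : Set (ℝ × ℝ)) := by
  ext w
  simp only [mem_insert_iff, mem_singleton_iff, mem_ofPred_eq]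
  constructor
  · rintro ⟨j, hj, rfl⟩
    have : j = 0 := by omega
    subst this; exact Or.inl rfl
  · rintro (h1 | h1)
    · exact ⟨0, one_pos, h1⟩
    · exact ⟨0, one_pos, h1.trans h⟩

theorem orbit_two {a b : ℝ} {p : ℝ × ℝ} :
    {q | ∃ i < 2, q = (henon a b)^[i] p} = ({p, henon a b p} : Set (ℝ × ℝ)) := by
  ext w
  simp only [mem_insert_iff, mem_singleton_iff, mem_ofPred_eq]
  constructor
  · rintro ⟨j, hj, rfl⟩
    have : j = 0 ∨ j = 1 := by omega
    rcases this with rfl | rfl
    · exact Or.inl rfl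
    · exact Or.inr rfl
  · rintro (h | h)
    · exact ⟨0, two_pos, h⟩
    · exact ⟨1, one_lt_two, h⟩

theorem trace_one (a b : ℝ) (p : ℝ × ℝ) : (jacIter a b p 1).trace = -2 * a * p.1 := by
  simp [jacIter, jac, Matrix.trace_fin_two]

theorem trace_two (a b : ℝ) (p : ℝ × ℝ) :
    (jacIter a b p 2).trace = 4 * a ^ 2 * (henon a b p).1 * p.1 + 2 * b := by
  simp [jacIter, jac, Matrix.trace_fin_two]
  ring

/-- Every sink is one of two candidates. -/
theorem sink_cases {a b : ℝ} (ha : 0 < a) (hb : 0 < b) (hb1 : b < 1) (hab : a < (1 - b) ^ 2)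
    {O : Set (ℝ × ℝ)} (hO : IsSink a b O) :
    (O = orb a b 1 ∧ 4 * a < 3 * (1 - b) ^ 2) ∨ (O = orb a b 2 ∧ 3 * (1 - b) ^ 2 < 4 * a) := by
  obtain ⟨p, n, hn, hmin, hOe, hev⟩ := hO
  have hp : (henon a b)^[n] p = p := by
    have := Function.isPeriodicPt_minimalPeriod (henon a b) p
    rwa [hmin] at this
  have hF := periodic_F2 ha hb hb1 hab hn hp
  have hdvd : n ∣ 2 := by
    rw [← hmin]
    exact Function.IsPeriodicPt.minimalPeriod_dvd hF
  have hn2 : n = 1 ∨ n = 2 := by
    have := Nat.le_of_dvd (by norm_num) hdvd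
    omega
  have h1b : 0 < 1 - b := by linarith
  have hP0 := PP_pos ha hb1
  have hPe := PP_eq (b := b) ha
  have hfixcase : henon a b p = p → n = 1 ∧ -(1 - b) < 2 * a * p.1 ∧ 2 * a * p.1 < 1 - b := by
    intro hfix
    have hn1 : n = 1 := by
      rw [← hmin]
      exact Function.minimalPeriod_eq_one_iff_isFixedPt.2 hfix
    refine ⟨hn1, ?_⟩
    subst hn1
    have hq : ∀ μ : ℂ, μ ^ 2 - ((-2 * a * p.1 : ℝ) : ℂ) * μ + ((-b : ℝ) : ℂ) = 0 → ‖μ‖ < 1 := by
      intro μ hμ
      apply hev
      rw [charpoly_root, trace_one, det_jacIter, pow_one]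
      exact hμ
    have j1 := jury_one hq
    have j2 := jury_neg hq
    constructor <;> linarith
  rcases F2_cases ha hF with ⟨hfix, hx⟩ | ⟨hfix, hx, hset⟩ | ⟨hfix, hlt, hset⟩
  · exfalso
    obtain ⟨-, h1, h2⟩ := hfixcase hfix
    rw [hx] at h1
    have h3 : a * PP a b * PP a b < (1 - b) * PP a b := by nlinarith
    nlinarith
  · left
    obtain ⟨rfl, h1, h2⟩ := hfixcase hfix
    rw [orbit_one hfix, hset] at hOe
    refine ⟨hOe, ?_⟩
    rw [hx] at h1 h2
    have h3 : 2 * a * (PP a b - (1 - b) / a) = 2 * (a * PP a b) - 2 * (1 - b) := by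
      field_simp
    rw [h3] at h1 h2
    have h4 : (a * PP a b) ^ 2 = (1 - b) * (a * PP a b) + a := by
      linear_combination a * hPe
    nlinarith
  · right
    have hn2' : n = 2 := by
      rcases hn2 with rfl | rfl
      · exact absurd hp hfix
      · rfl
    subst hn2'
    rw [orbit_two, hset] at hOe
    exact ⟨hOe, hlt⟩

/-- The fixed point is a sink for `4 a < 3 (1-b)^2`. -/
theorem sink_fixed {a b : ℝ} (ha : 0 < a) (hb : 0 < b) (hb1 : b < 1)
    (h : 4 * a < 3 * (1 - b) ^ 2) : ∃ O, IsSink a b O := by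
  have h1b : 0 < 1 - b := by linarith
  have hPe := PP_eq (b := b) ha
  have hP0 := PP_pos ha hb1
  set Q : ℝ := PP a b - (1 - b) / a with hQ
  have hQe : a * Q ^ 2 + (1 - b) * Q = 1 := by
    have h3 : a * Q = a * PP a b - (1 - b) := by rw [hQ]; field_simp
    have h4 : a * (a * Q ^ 2 + (1 - b) * Q) = a * 1 := by
      have : a * (a * Q ^ 2 + (1 - b) * Q) = (a * Q) * (a * Q + (1 - b)) := by ring
      rw [this, h3]
      linear_combination a * hPe
    exact mul_left_cancel₀ ha.ne' h4
  have hQa : (a * Q) * (a * Q + (1 - b)) = a := by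
    linear_combination a * hQe
  have haQ : 0 < a * Q := by
    have h3 : a * Q = a * PP a b - (1 - b) := by rw [hQ]; field_simp
    rw [h3]
    have : (1 - b) * PP a b < a * PP a b * PP a b := by nlinarith
    have := lt_of_mul_lt_mul_right this hP0.le
    linarith
  have hfix : henon a b (Q, b * Q) = (Q, b * Q) := by
    unfold henon
    ext
    · simp only []; linarith
    · rfl
  refine ⟨{q | ∃ i < 1, q = (henon a b)^[i] (Q, b * Q)}, (Q, b * Q), 1, one_pos,
    Function.minimalPeriod_eq_one_iff_isFixedPt.2 hfix, rfl, ?_⟩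
  intro μ hμ
  rw [charpoly_root, trace_one, det_jacIter, pow_one] at hμ
  have hlt : a * Q < (1 - b) / 2 := by
    by_contra hc
    push Not at hc
    have : (1 - b) / 2 * ((1 - b) / 2 + (1 - b)) ≤ (a * Q) * (a * Q + (1 - b)) := by
      apply mul_le_mul hc (by linarith) (by positivity) haQ.le
    nlinarith
  exact jury_suff (by simp only []; linarith) (by simp only []; linarith) (by linarith) μ hμ

/-- The two-cycle is a sink for `3 (1-b)^2 < 4 a` (and `a < (1-b)^2`). -/
theorem sink_two {a b : ℝ} (ha : 0 < a) (hb : 0 < b) (hb1 : b < 1) (hab : a < (1 - b) ^ 2)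
    (h : 3 * (1 - b) ^ 2 < 4 * a) : ∃ O, IsSink a b O := by
  have h1b : 0 < 1 - b := by linarith
  set D : ℝ := 4 * a - 3 * (1 - b) ^ 2 with hD
  have hD0 : 0 < D := by rw [hD]; linarith
  have hDs : Real.sqrt D ^ 2 = D := Real.sq_sqrt hD0.le
  set r := Real.sqrt D with hr
  have hr0 : 0 < r := Real.sqrt_pos.2 hD0
  set x : ℝ := ((1 - b) + r) / (2 * a) with hx
  set x' : ℝ := ((1 - b) - r) / (2 * a) with hx'
  have e1 : 2 * a * x = (1 - b) + r := by rw [hx]; field_simp
  have e2 : 2 * a * x' = (1 - b) - r := by rw [hx']; field_simp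
  have hrec1 : 1 - a * x ^ 2 + b * x' = x' := by
    have : 4 * a * (1 - a * x ^ 2 + b * x' - x') = 0 := by
      have h1 : 4 * a * (1 - a * x ^ 2 + b * x' - x') =
        4 * a - (2 * a * x) ^ 2 - 2 * (1 - b) * (2 * a * x') := by ring
      rw [h1, e1, e2]
      linear_combination -hDs
    rcases mul_eq_zero.1 this with h | h
    · exact absurd h (by positivity)
    · linarith
  have hrec2 : 1 - a * x' ^ 2 + b * x = x := by
    have : 4 * a * (1 - a * x' ^ 2 + b * x - x) = 0 := by
      have h1 : 4 * a * (1 - a * x' ^ 2 + b * x - x) =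
        4 * a - (2 * a * x') ^ 2 - 2 * (1 - b) * (2 * a * x) := by ring
      rw [h1, e1, e2]
      linear_combination -hDs
    rcases mul_eq_zero.1 this with h | h
    · exact absurd h (by positivity)
    · linarith
  have hH1 : henon a b (x, b * x') = (x', b * x) := by
    unfold henon
    ext
    · exact hrec1
    · rfl
  have hH2 : henon a b (x', b * x) = (x, b * x') := by
    unfold henon
    ext
    · exact hrec2
    · rfl
  have hne : henon a b (x, b * x') ≠ (x, b * x') := by
    rw [hH1]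
    intro hh
    have : x' = x := congrArg Prod.fst hh
    rw [this] at e2
    linarith
  have hper : (henon a b)^[2] (x, b * x') = (x, b * x') := by
    change henon a b (henon a b (x, b * x')) = _
    rw [hH1, hH2]
  have hmin : Function.minimalPeriod (henon a b) (x, b * x') = 2 := by
    have hd : Function.minimalPeriod (henon a b) (x, b * x') ∣ 2 :=
      Function.IsPeriodicPt.minimalPeriod_dvd hper
    have h1 : Function.minimalPeriod (henon a b) (x, b * x') ≠ 1 := fun h1 =>
      hne (Function.minimalPeriod_eq_one_iff_isFixedPt.1 h1)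
    rcases (Nat.dvd_prime Nat.prime_two).1 hd with h2 | h2
    · exact absurd h2 h1
    · exact h2
  refine ⟨{q | ∃ i < 2, q = (henon a b)^[i] (x, b * x')}, (x, b * x'), 2, two_pos, hmin, rfl, ?_⟩
  intro μ hμ
  rw [charpoly_root, trace_two, det_jacIter, hH1] at hμ
  have hprod : 4 * a ^ 2 * x' * x = (1 - b) ^ 2 - D := by
    have : 4 * a ^ 2 * x' * x = (2 * a * x) * (2 * a * x') := by ring
    rw [this, e1, e2, ← hDs]; ring
  simp only [] at hμ
  rw [hprod] at hμ
  refine jury_suff ?_ ?_ ?_ μ hμ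
  · rw [hD]; nlinarith
  · rw [hD]; nlinarith
  · nlinarith

end Pool.Agent.H48.HN
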