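import Pool.Agent.H48.HN.Sub
import Pool.Agent.H48.HN.Defs

/-!
The region `0 < b < 1`, `0 < a < (1-b)^2`: no sensitive dependence, periodic points have period
at most two, at most three periodic orbits.
-/

namespace Pool.Agent.H48.HN

open Filter Topology Set

/-- The fixed points of the second iterate. -/
def F2 (a b : ℝ) : Set (ℝ × ℝ) := {q | henon a b (henon a b q) = q}

theorem iter_two_mul (a b : ℝ) (p : ℝ × ℝ) (m : ℕ) :
    (henon a b)^[2 * (m + 1)] p = henon a b (henon a b ((henon a b)^[2 * m] p)) := by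
  rw [show 2 * (m + 1) = (2 * m + 1) + 1 by ring, Function.iterate_succ_apply',
    Function.iterate_succ_apply']

/-- A point with bounded forward orbit is asymptotic to a fixed point of the second iterate. -/
theorem tendsto_F2 {a b : ℝ} (ha : 0 < a) (hb : 0 < b) (hb1 : b < 1) (hab : a < (1 - b) ^ 2)
    {p : ℝ × ℝ} {C : ℝ} (hC : ∀ n, |((henon a b)^[n] p).1| ≤ C) :
    ∃ q ∈ F2 a b, Tendsto (fun m => (henon a b)^[2 * m] p) atTop (𝓝 q) := by
  have hxC : ∀ n, |xs a b p n| ≤ max C |p.2 / b| := by
    intro n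
    cases n with
    | zero => exact le_max_right _ _
    | succ n => exact (hC n).trans (le_max_left _ _)
  obtain ⟨⟨l0, h0⟩, ⟨l1, h1⟩⟩ := conv_all ha hb hb1 hab (xs_rec hb.ne' p) hxC
  have ht : Tendsto (fun m => (henon a b)^[2 * m] p) atTop (𝓝 (l1, b * l0)) := by
    have := h1.prodMk_nhds (h0.const_mul b)
    refine this.congr fun m => ?_
    rw [iter_eq hb.ne' p (2 * m)]
  refine ⟨(l1, b * l0), ?_, ht⟩
  have hc : Continuous fun w => henon a b (henon a b w) :=
    (henon_continuous a b).comp (henon_continuous a b)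
  have h2 : Tendsto (fun m => (henon a b)^[2 * (m + 1)] p) atTop
      (𝓝 (henon a b (henon a b (l1, b * l0)))) := by
    refine ((hc.tendsto _).comp ht).congr fun m => ?_
    rw [iter_two_mul]; rfl
  have h3 : Tendsto (fun m => (henon a b)^[2 * (m + 1)] p) atTop (𝓝 (l1, b * l0)) :=
    ht.comp (tendsto_add_atTop_nat 1)
  exact tendsto_nhds_unique h2 h3

theorem F2_mem {a b : ℝ} {q : ℝ × ℝ} (h : q ∈ F2 a b) :
    (1 - b) * q.1 = 1 - a * (henon a b q).1 ^ 2 ∧ (1 - b) * (henon a b q).1 = 1 - a * q.1 ^ 2 ∧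
      q.2 = b * (henon a b q).1 := by
  have h1 : (henon a b (henon a b q)).1 = q.1 := congrArg Prod.fst h
  have h2 : (henon a b (henon a b q)).2 = q.2 := congrArg Prod.snd h
  have e1 : (henon a b (henon a b q)).1 = 1 - a * (henon a b q).1 ^ 2 + b * q.1 := rfl
  have e2 : (henon a b (henon a b q)).2 = b * (henon a b q).1 := rfl
  have e3 : (henon a b q).1 = 1 - a * q.1 ^ 2 + q.2 := rfl
  rw [e1] at h1
  rw [e2] at h2
  refine ⟨by linarith, ?_, h2.symm⟩
  rw [← h2] at e3
  linarith

/-- The three candidate periodic orbits. -/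
noncomputable def orb (a b : ℝ) : Fin 3 → Set (ℝ × ℝ)
  | 0 => {(-PP a b, b * -PP a b)}
  | 1 => {(PP a b - (1 - b) / a, b * (PP a b - (1 - b) / a))}
  | 2 => {(((1 - b) + Real.sqrt (4 * a - 3 * (1 - b) ^ 2)) / (2 * a),
            b * (((1 - b) - Real.sqrt (4 * a - 3 * (1 - b) ^ 2)) / (2 * a))),
          (((1 - b) - Real.sqrt (4 * a - 3 * (1 - b) ^ 2)) / (2 * a),
            b * (((1 - b) + Real.sqrt (4 * a - 3 * (1 - b) ^ 2)) / (2 * a)))}

theorem F2_orbit {a b : ℝ} (ha : 0 < a) {q : ℝ × ℝ} (h : q ∈ F2 a b) :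
    ∃ i, ({q, henon a b q} : Set (ℝ × ℝ)) = orb a b i := by
  obtain ⟨h1, h2, h3⟩ := F2_mem h
  set x := q.1 with hx
  set x' := (henon a b q).1 with hx'
  have hq : q = (x, b * x') := Prod.ext rfl h3
  have hHq : henon a b q = (x', b * x) := Prod.ext rfl rfl
  by_cases he : x = x'
  · -- fixed point
    have hquad : a * x ^ 2 + (1 - b) * x - 1 = 0 := by rw [← he] at h2; linarith
    have hP := PP_eq (b := b) ha
    have hprod : (x + PP a b) * (x - (PP a b - (1 - b) / a)) = 0 := by
      have : a * ((x + PP a b) * (x - (PP a b - (1 - b) / a))) = 0 := by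
        have h4 : a * ((x + PP a b) * (x - (PP a b - (1 - b) / a))) =
          (a * x ^ 2 + (1 - b) * x - 1) - (a * PP a b ^ 2 - ((1 - b) * PP a b + 1)) := by
          field_simp; ring
        rw [h4, hquad, hP]; ring
      rcases mul_eq_zero.1 this with h | h
      · exact absurd h ha.ne'
      · exact h
    have hq' : q = (x, b * x) := hq.trans (by rw [← he])
    have hHq' : henon a b q = (x, b * x) := hHq.trans (by rw [← he])
    have hset : ({q, henon a b q} : Set (ℝ × ℝ)) = {(x, b * x)} := by
      ext w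
      simp only [mem_insert_iff, mem_singleton_iff]
      constructor
      · rintro (h | h)
        · exact h.trans hq'
        · exact h.trans hHq'
      · intro h
        exact Or.inl (h.trans hq'.symm)
    rcases mul_eq_zero.1 hprod with h5 | h5
    · refine ⟨0, ?_⟩
      have : x = -PP a b := by linarith
      rw [hset, this]; rfl
    · refine ⟨1, ?_⟩
      have : x = PP a b - (1 - b) / a := by linarith
      rw [hset, this]; rfl
  · -- two-cycle
    refine ⟨2, ?_⟩
    have hsum : a * (x + x') = 1 - b := by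
      have h4 : (x - x') * (a * (x + x') - (1 - b)) = 0 := by linear_combination h2 - h1
      rcases mul_eq_zero.1 h4 with h | h
      · exact absurd (sub_eq_zero.1 h) he
      · linarith
    set D : ℝ := 4 * a - 3 * (1 - b) ^ 2 with hD
    have hsq : (2 * a * x - (1 - b)) ^ 2 = D := by
      have h5 : a * (a * x ^ 2) = a * (1 - (1 - b) * x') := by rw [h2]; ring
      have h6 : a * x' = (1 - b) - a * x := by linarith
      rw [hD]
      have : a * ((1 - b) * x') = (1 - b) * ((1 - b) - a * x) := by rw [← h6]; ring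
      nlinarith
    have hDs : Real.sqrt D ^ 2 = D := by
      apply Real.sq_sqrt; rw [← hsq]; positivity
    set r := Real.sqrt D with hr
    have hx2 : ∀ t t' : ℝ, 2 * a * t = (1 - b) + r → 2 * a * t' = (1 - b) - r →
        ((1 - b) + r) / (2 * a) = t ∧ ((1 - b) - r) / (2 * a) = t' := by
      intro t t' ht ht'
      constructor
      · rw [← ht]; field_simp
      · rw [← ht']; field_simp
    have hfac : (2 * a * x - (1 - b) - r) * (2 * a * x - (1 - b) + r) = 0 := by
      linear_combination hsq - hDs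
    have hset : ({q, henon a b q} : Set (ℝ × ℝ)) = {(x, b * x'), (x', b * x)} := by
      ext w
      simp only [mem_insert_iff, mem_singleton_iff]
      constructor
      · rintro (h | h)
        · exact Or.inl (h.trans hq)
        · exact Or.inr (h.trans hHq)
      · rintro (h | h)
        · exact Or.inl (h.trans hq.symm)
        · exact Or.inr (h.trans hHq.symm)
    rcases mul_eq_zero.1 hfac with h7 | h7
    · obtain ⟨e1, e2⟩ := hx2 x x' (by linarith) (by linarith)
      rw [hset]
      change _ = ({(((1 - b) + r) / (2 * a), b * (((1 - b) - r) / (2 * a))),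
          (((1 - b) - r) / (2 * a), b * (((1 - b) + r) / (2 * a)))} : Set (ℝ × ℝ))
      rw [e1, e2]
    · obtain ⟨e1, e2⟩ := hx2 x' x (by linarith) (by linarith)
      rw [hset]
      change _ = ({(((1 - b) + r) / (2 * a), b * (((1 - b) - r) / (2 * a))),
          (((1 - b) - r) / (2 * a), b * (((1 - b) + r) / (2 * a)))} : Set (ℝ × ℝ))
      rw [e1, e2, Set.pair_comm]

theorem F2_finite {a b : ℝ} (ha : 0 < a) : (F2 a b).Finite := by
  have h1 : (⋃ i, orb a b i).Finite := by
    apply Set.finite_iUnion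
    intro i
    fin_cases i
    · exact Set.finite_singleton _
    · exact Set.finite_singleton _
    · exact (Set.finite_singleton _).insert _
  refine h1.subset fun q hq => ?_
  obtain ⟨i, hi⟩ := F2_orbit ha hq
  exact Set.mem_iUnion.2 ⟨i, hi ▸ Set.mem_insert _ _⟩

/-- Periodic points are fixed by the second iterate. -/
theorem periodic_F2 {a b : ℝ} (ha : 0 < a) (hb : 0 < b) (hb1 : b < 1) (hab : a < (1 - b) ^ 2)
    {p : ℝ × ℝ} {n : ℕ} (hn : 0 < n) (hp : (henon a b)^[n] p = p) : p ∈ F2 a b := by
  have hper : ∀ k, (henon a b)^[n * k] p = p := by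
    intro k
    induction k with
    | zero => simp
    | succ k ih => rw [mul_add, mul_one, Function.iterate_add_apply, hp, ih]
  have hbd : ∃ C, ∀ i, |((henon a b)^[i] p).1| ≤ C := by
    have hfin : (Set.range fun i => ((henon a b)^[i] p).1).Finite := by
      have hsub : (Set.range fun i => ((henon a b)^[i] p).1) ⊆
          (fun i => ((henon a b)^[i] p).1) '' (Set.Iio n) := by
        rintro _ ⟨i, rfl⟩
        refine ⟨i % n, Nat.mod_lt _ hn, ?_⟩
        simp only []
        conv_rhs => rw [← Nat.mod_add_div i n, Function.iterate_add_apply, hper]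
      exact ((Set.finite_Iio n).image _).subset hsub
    obtain ⟨C, hC⟩ := (hfin.image (fun t : ℝ => |t|)).bddAbove
    exact ⟨C, fun i => hC ⟨_, ⟨i, rfl⟩, rfl⟩⟩
  obtain ⟨C, hC⟩ := hbd
  obtain ⟨q, hq, ht⟩ := tendsto_F2 ha hb hb1 hab hC
  have h1 : Tendsto (fun k => (henon a b)^[2 * (n * k)] p) atTop (𝓝 q) := by
    refine ht.comp (tendsto_atTop_mono (fun k => ?_) tendsto_id)
    simp only [id]
    exact Nat.le_mul_of_pos_left k hn
  have h2 : ∀ k, (henon a b)^[2 * (n * k)] p = p := by
    intro k
    have := hper (2 * k)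
    rwa [show n * (2 * k) = 2 * (n * k) by ring] at this
  have h3 : q = p := by
    refine tendsto_nhds_unique h1 ?_
    simp only [h2]
    exact tendsto_const_nhds
  rw [← h3]; exact hq

/-- Every sink is one of the three candidates. -/
theorem sink_orb {a b : ℝ} (ha : 0 < a) (hb : 0 < b) (hb1 : b < 1) (hab : a < (1 - b) ^ 2)
    {O : Set (ℝ × ℝ)} (hO : IsSink a b O) : ∃ i, O = orb a b i := by
  obtain ⟨p, n, hn, hmin, hOe, -⟩ := hO
  have hp : (henon a b)^[n] p = p := by
    have := Function.isPeriodicPt_minimalPeriod (henon a b) p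
    rwa [hmin] at this
  have hF := periodic_F2 ha hb hb1 hab hn hp
  obtain ⟨i, hi⟩ := F2_orbit ha hF
  refine ⟨i, ?_⟩
  rw [← hi, hOe]
  have hdvd : n ∣ 2 := by
    rw [← hmin]
    exact Function.IsPeriodicPt.minimalPeriod_dvd hF
  have hn2 : n = 1 ∨ n = 2 := by
    have := Nat.le_of_dvd (by norm_num) hdvd
    omega
  ext w
  simp only [mem_insert_iff, mem_singleton_iff, mem_ofPred_eq]
  rcases hn2 with rfl | rfl
  · have hp1 : henon a b p = p := hp
    constructor
    · rintro ⟨j, hj, rfl⟩
      have : j = 0 := by omega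
      subst this; exact Or.inl rfl
    · rintro (h | h)
      · exact ⟨0, one_pos, h⟩
      · exact ⟨0, one_pos, h.trans hp1⟩
  · constructor
    · rintro ⟨j, hj, rfl⟩
      have : j = 0 ∨ j = 1 := by omega
      rcases this with rfl | rfl
      · exact Or.inl rfl
      · exact Or.inr rfl
    · rintro (h | h)
      · exact ⟨0, two_pos, h⟩
      · exact ⟨1, one_lt_two, h⟩

end Pool.Agent.H48.HN
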