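import Pool.Agent.H48.HN.Conv

/-!
Convergence of the even and odd subsequences of bounded solutions.
-/

namespace Pool.Agent.H48.HN

open Filter Topology

/-- Monotone bounded from some index on. -/
theorem conv_of_mono {g : ℕ → ℝ} {C : ℝ} (hC : ∀ n, |g n| ≤ C) {N : ℕ}
    (h : ∀ n, N ≤ n → g n ≤ g (n + 1)) : ∃ l, Tendsto g atTop (𝓝 l) := by
  have hm : Monotone fun n => g (N + n) := monotone_nat_of_le_succ fun n => h (N + n) (by omega)
  have hb : BddAbove (Set.range fun n => g (N + n)) :=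
    ⟨C, by rintro _ ⟨n, rfl⟩; exact (abs_le.1 (hC _)).2⟩
  have := tendsto_atTop_ciSup hm hb
  refine ⟨_, (tendsto_add_atTop_iff_nat N).1 (this.congr fun n => ?_)⟩
  rw [add_comm]

theorem conv_of_anti {g : ℕ → ℝ} {C : ℝ} (hC : ∀ n, |g n| ≤ C) {N : ℕ}
    (h : ∀ n, N ≤ n → g (n + 1) ≤ g n) : ∃ l, Tendsto g atTop (𝓝 l) := by
  obtain ⟨l, hl⟩ := conv_of_mono (g := fun n => - g n) (C := C) (fun n => by simpa using hC n)
    (N := N) (fun n hn => neg_le_neg (h n hn))
  exact ⟨-l, by simpa using hl.neg⟩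

/-- Differences decaying geometrically. -/
theorem conv_of_geom {g : ℕ → ℝ} {C b : ℝ} (hb1 : b < 1)
    (h : ∀ n, |g (n + 1) - g n| ≤ C * b ^ n) : ∃ l, Tendsto g atTop (𝓝 l) := by
  have : CauchySeq g := by
    apply cauchySeq_of_le_geometric b C hb1
    intro n
    rw [dist_comm, Real.dist_eq]
    exact h n
  exact cauchySeq_tendsto_of_complete this

/-- Positive bounded solutions have convergent even and odd subsequences. -/
theorem conv_pos {y : ℕ → ℝ} {a b : ℝ} (ha : 0 < a) (hb : 0 < b) (hb1 : b < 1)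
    (hy : ∀ n, y (n + 2) = 1 - a * y (n + 1) ^ 2 + b * y n)
    {C : ℝ} (hC : ∀ n, |y n| ≤ C) (hpos : ∀ n, 0 < y n) :
    (∃ l, Tendsto (fun m => y (2 * m)) atTop (𝓝 l)) ∧
      ∃ l, Tendsto (fun m => y (2 * m + 1)) atTop (𝓝 l) := by
  set f : ℕ → ℝ := fun n => (-1) ^ n * (y (n + 2) - y n) with hf
  set A : ℕ → ℝ := fun n => a * (y (n + 3) + y (n + 1)) with hA
  have hA0 : ∀ n, 0 < A n := fun n => mul_pos ha (add_pos (hpos _) (hpos _))
  have hrec : ∀ n, f (n + 2) = A n * f (n + 1) + b * f n := by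
    intro n
    have h1 := hy (n + 2)
    have h2 := hy n
    have e1 : n + 2 + 2 = n + 4 := by ring
    have e2 : n + 2 + 1 = n + 3 := by ring
    have e3 : n + 1 + 2 = n + 3 := by ring
    rw [e1, e2] at h1
    simp only [hf, hA]
    rw [e1, e3, h1]
    have h3 : ((-1 : ℝ)) ^ (n + 2) = (-1) ^ n := by rw [pow_add]; norm_num
    have h4 : ((-1 : ℝ)) ^ (n + 1) = -(-1) ^ n := by rw [pow_succ]; ring
    rw [h3, h4, h2]
    ring
  have heven : ∀ m, f (2 * m) = y (2 * (m + 1)) - y (2 * m) := by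
    intro m
    simp only [hf]
    rw [pow_mul, neg_one_sq, one_pow, one_mul]
    rfl
  have hodd : ∀ m, f (2 * m + 1) = -(y (2 * (m + 1) + 1) - y (2 * m + 1)) := by
    intro m
    simp only [hf]
    rw [pow_succ, pow_mul, neg_one_sq, one_pow]
    have : 2 * m + 1 + 2 = 2 * (m + 1) + 1 := by ring
    rw [this]; ring
  rcases tri hb hA0 hrec with ⟨N, hN⟩ | ⟨N, hN⟩ | h
  · constructor
    · apply conv_of_mono (C := C) (fun n => hC _) (N := N)
      intro m hm
      have := hN (2 * m) (by omega)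
      rw [heven m] at this
      linarith
    · apply conv_of_anti (C := C) (fun n => hC _) (N := N)
      intro m hm
      have := hN (2 * m + 1) (by omega)
      rw [hodd m] at this
      linarith
  · constructor
    · apply conv_of_anti (C := C) (fun n => hC _) (N := N)
      intro m hm
      have := hN (2 * m) (by omega)
      rw [heven m] at this
      linarith
    · apply conv_of_mono (C := C) (fun n => hC _) (N := N)
      intro m hm
      have := hN (2 * m + 1) (by omega)
      rw [hodd m] at this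
      linarith
  · constructor
    · apply conv_of_geom (C := |f 0|) hb1
      intro m
      have := tendsto_zero_of_contract hb h 0 m
      rw [add_zero, heven m] at this
      exact this
    · apply conv_of_geom (C := |f 1|) hb1
      intro m
      have := tendsto_zero_of_contract hb h 1 m
      rw [hodd m, abs_neg] at this
      exact this

/-- Bounded solutions have convergent even and odd subsequences. -/
theorem conv_all {x : ℕ → ℝ} {a b : ℝ} (ha : 0 < a) (hb : 0 < b) (hb1 : b < 1)
    (hab : a < (1 - b) ^ 2) (hx : ∀ n, x (n + 2) = 1 - a * x (n + 1) ^ 2 + b * x n)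
    {C : ℝ} (hC : ∀ n, |x n| ≤ C) :
    (∃ l, Tendsto (fun m => x (2 * m)) atTop (𝓝 l)) ∧
      ∃ l, Tendsto (fun m => x (2 * m + 1)) atTop (𝓝 l) := by
  rcases dichotomy ha hb hb1 hab hx hC with h | ⟨N, hN⟩
  · refine ⟨⟨_, h.comp ?_⟩, ⟨_, h.comp ?_⟩⟩
    · exact tendsto_atTop_mono (fun n => by simp only [id]; omega) tendsto_id
    · exact tendsto_atTop_mono (fun n => by simp only [id]; omega) tendsto_id
  · obtain ⟨⟨l0, h0⟩, ⟨l1, h1⟩⟩ := conv_pos (y := fun n => x (2 * N + n)) ha hb hb1
      (fun n => hx (2 * N + n)) (fun n => hC _) (fun n => hN _ (by omega))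
    refine ⟨⟨l0, ?_⟩, ⟨l1, ?_⟩⟩
    · refine (tendsto_add_atTop_iff_nat N).1 (h0.congr fun m => ?_)
      congr 1; ring
    · refine (tendsto_add_atTop_iff_nat N).1 (h1.congr fun m => ?_)
      congr 1; ring

end Pool.Agent.H48.HN
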